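import Pool.Agent.L7h53.HS.Kil

/-!
# Project HS, part IND: adding an independent class
-/

set_option autoImplicit false

namespace Pool.Agent.L7h53.HS

open CategoryTheory Opposite Simplicial
open Pool.Agent.L7h74.HS

theorem not_inj_comp {x y z : SimplexCategory} (s : x ⟶ y) (g : y ⟶ z) (h : ¬ Inj s) :
    ¬ Inj (s ≫ g) := by
  intro h1
  apply h
  intro a b hab
  apply h1
  show g.toOrderHom (s.toOrderHom a) = g.toOrderHom (s.toOrderHom b)
  rw [hab]

theorem sum_zero' {k : ℕ} {m : SimplexCategory}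
    (b : (SimplexCategory.mk k ⟶ m) → ZMod 2) (hb : ∀ s, ¬ Inj s → b s = 0) (j : Fin (k + 1))
    (e : SimplexCategory.mk k ⟶ m) :
    ∑ i : Fin (k + 2), b (SimplexCategory.δ i ≫ SimplexCategory.σ j ≫ e) = 0 := by
  rw [Fintype.sum_eq_add j.castSucc j.succ (Fin.castSucc_lt_succ).ne]
  · rw [← Category.assoc, ← Category.assoc, SimplexCategory.δ_comp_σ_self,
      SimplexCategory.δ_comp_σ_succ, Category.id_comp]
    exact CharTwo.add_self_eq_zero _
  · rintro i ⟨hi1, hi2⟩
    apply hb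
    intro h
    obtain ⟨x, hx⟩ := Fin.exists_succAbove_eq (Ne.symm hi1)
    obtain ⟨y, hy⟩ := Fin.exists_succAbove_eq (Ne.symm hi2)
    have h1 : (SimplexCategory.δ i ≫ SimplexCategory.σ j ≫ e).toOrderHom x =
        (SimplexCategory.δ i ≫ SimplexCategory.σ j ≫ e).toOrderHom y := by
      show e.toOrderHom (Fin.predAbove j (i.succAbove x)) =
        e.toOrderHom (Fin.predAbove j (i.succAbove y))
      rw [hx, hy, Fin.predAbove_castSucc_self, Fin.predAbove_succ_self]
    have h2 : x = y := h h1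
    rw [h2, hy] at hx
    exact absurd hx.symm (Fin.castSucc_lt_succ).ne

/-- the product of `Z` with the simplicial set of the normalised cocycles of degree `k + 1` -/
def pk (k : ℕ) (Z : SSet.{0}) : SSet.{0} where
  obj m := Z.obj m × {c : (SimplexCategory.mk (k + 1) ⟶ m.unop) → ZMod 2 //
    (∀ t : SimplexCategory.mk (k + 2) ⟶ m.unop,
      ∑ i : Fin (k + 3), c (SimplexCategory.δ i ≫ t) = 0) ∧ ∀ s, ¬ Inj s → c s = 0}
  map {m m'} g := ↾ fun p => (Z.map g p.1, ⟨fun s => p.2.1 (s ≫ g.unop), fun t => by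
      refine (Finset.sum_congr rfl fun i _ => ?_).trans (p.2.2.1 (t ≫ g.unop))
      show p.2.1 ((SimplexCategory.δ i ≫ t) ≫ g.unop) = _
      rw [Category.assoc], fun s hs => p.2.2.2 _ (not_inj_comp s _ hs)⟩)
  map_id m := by
    refine ConcreteCategory.hom_ext _ _ fun p => ?_
    refine Prod.ext ?_ (Subtype.ext ?_)
    · exact ConcreteCategory.congr_hom (Z.map_id m) p.1
    · funext s
      show p.2.1 (s ≫ (𝟙 m : m ⟶ m).unop) = p.2.1 s
      rw [unop_id, Category.comp_id]
  map_comp {m m' m''} f g := by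
    refine ConcreteCategory.hom_ext _ _ fun p => ?_
    refine Prod.ext ?_ (Subtype.ext ?_)
    · exact ConcreteCategory.congr_hom (Z.map_comp f g) p.1
    · funext s
      show p.2.1 (s ≫ (f ≫ g).unop) = p.2.1 ((s ≫ g.unop) ≫ f.unop)
      rw [unop_comp, Category.assoc]

/-- the projection -/
def pkp (k : ℕ) (Z : SSet.{0}) : pk k Z ⟶ Z where
  app m := ↾ fun p => p.1
  naturality m m' f := by
    ext p
    rfl

/-- the zero cocycle -/
def zc (k : ℕ) (m : SimplexCategory) : {c : (SimplexCategory.mk (k + 1) ⟶ m) → ZMod 2 //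
    (∀ t : SimplexCategory.mk (k + 2) ⟶ m,
      ∑ i : Fin (k + 3), c (SimplexCategory.δ i ≫ t) = 0) ∧ ∀ s, ¬ Inj s → c s = 0} :=
  ⟨fun _ => 0, fun _ => Finset.sum_const_zero, fun _ _ => rfl⟩

/-- the section -/
def pks (k : ℕ) (Z : SSet.{0}) : Z ⟶ pk k Z where
  app m := ↾ fun z => (z, zc k m.unop)
  naturality m m' f := by
    refine ConcreteCategory.hom_ext _ _ fun p => ?_
    rfl

open Classical in
/-- the fundamental simplex -/
noncomputable def fc (k : ℕ) : {c : (SimplexCategory.mk (k + 1) ⟶ SimplexCategory.mk (k + 1)) → ZMod 2 //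
    (∀ t : SimplexCategory.mk (k + 2) ⟶ SimplexCategory.mk (k + 1),
      ∑ i : Fin (k + 3), c (SimplexCategory.δ i ≫ t) = 0) ∧ ∀ s, ¬ Inj s → c s = 0} :=
  ⟨fun s => if s = 𝟙 _ then 1 else 0, by
    have h0 : ∀ s : SimplexCategory.mk (k + 1) ⟶ SimplexCategory.mk (k + 1), ¬ Inj s →
        (if s = 𝟙 _ then (1 : ZMod 2) else 0) = 0 := by
      intro s hs
      rw [if_neg]
      rintro rfl
      exact hs fun a b h => h
    refine ⟨fun t => ?_, h0⟩
    obtain ⟨j, e, rfl⟩ := SimplexCategory.eq_σ_comp_of_not_injective t (not_inj_of_lt le_rfl t)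
    exact sum_zero' (fun s => if s = 𝟙 _ then (1 : ZMod 2) else 0) h0 j e⟩

theorem s_IND : S_IND := by
  intro k hk Z hZ
  obtain ⟨z0⟩ : Nonempty (Sx Z 0) := hZ.nonempty
  -- low-dimensional cocycles vanish
  have hlow : ∀ (m : ℕ) (_ : m ≤ k) (w w' : Sx (pk k Z) m), w.1 = w'.1 → w = w' := by
    intro m hm w w' h
    refine Prod.ext h (Subtype.ext ?_)
    funext s
    rw [w.2.2.2 s (not_inj_of_lt hm s), w'.2.2.2 s (not_inj_of_lt hm s)]
  have hconn : (pk k Z).IsConnected := by
    refine conn_of_const ⟨(z0, zc k _)⟩ fun g hg => ?_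
    have h3 := const_of_conn hZ (fun z => g (z, zc k _)) (fun e => hg (e, zc k _))
    intro x y
    rw [hlow 0 (Nat.zero_le _) x (x.1, zc k _) rfl, hlow 0 (Nat.zero_le _) y (y.1, zc k _) rfl]
    exact h3 _ _
  refine ⟨pk k Z, hconn, pkp k Z, fun w => w.2.1 (𝟙 _), ⟨?_, ?_⟩, ?_, ?_⟩
  · funext w
    refine (Finset.sum_congr rfl fun i _ => ?_).trans (w.2.2.1 (𝟙 _))
    show w.2.1 (𝟙 _ ≫ SimplexCategory.δ i) = _
    rw [Category.id_comp, Category.comp_id]
  · intro i s
    show s.2.1 (𝟙 _ ≫ SimplexCategory.σ i) = 0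
    apply s.2.2.2
    rw [Category.id_comp]
    have := not_inj_sigma i (𝟙 (SimplexCategory.mk k))
    rwa [Category.comp_id] at this
  · rintro v hv ⟨β, hβ⟩
    refine ⟨rs (pks k Z) β, ?_⟩
    rw [dl_rs, ← hβ]
    rfl
  · rintro v hv ⟨β, hβ⟩
    -- the constant simplex
    let cz : ∀ m : ℕ, Sx Z m := fun m => Z.map (SimplexCategory.const (SimplexCategory.mk m)
      (SimplexCategory.mk 0) 0).op z0
    have hface : ∀ i : Fin (k + 2), SimplicialObject.δ Z i (cz (k + 1)) = cz k := by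
      intro i
      have h1 : Z.map (SimplexCategory.δ i ≫ SimplexCategory.const (SimplexCategory.mk (k + 1))
          (SimplexCategory.mk 0) 0).op z0 = SimplicialObject.δ Z i (cz (k + 1)) := by
        rw [op_comp]
        exact ConcreteCategory.congr_hom (Z.map_comp _ _) z0
      rw [← h1]
      rfl
    have hv0 : v (cz (k + 1)) = 0 := by
      have h1 : cz (k + 1) = SimplicialObject.σ Z (0 : Fin (k + 1)) (cz k) := by
        have h1 : Z.map (SimplexCategory.σ (0 : Fin (k + 1)) ≫ SimplexCategory.const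
            (SimplexCategory.mk k) (SimplexCategory.mk 0) 0).op z0 =
            SimplicialObject.σ Z (0 : Fin (k + 1)) (cz k) := by
          rw [op_comp]
          exact ConcreteCategory.congr_hom (Z.map_comp _ _) z0
        rw [← h1]
        rfl
      rw [h1]
      exact hv.2 _ _
    have key : ∀ c, (v (cz (k + 1)) + c.1 (𝟙 _)) =
        ∑ i : Fin (k + 2), β (SimplicialObject.δ (pk k Z) i ((cz (k + 1), c) : Sx (pk k Z) (k + 1))) :=
      fun c => congrFun hβ ((cz (k + 1), c) : Sx (pk k Z) (k + 1))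
    have h1 := key (fc k)
    have h2 := key (zc k _)
    have h3 : ∀ i : Fin (k + 2), SimplicialObject.δ (pk k Z) i
          ((cz (k + 1), fc k) : Sx (pk k Z) (k + 1)) =
        SimplicialObject.δ (pk k Z) i ((cz (k + 1), zc k _) : Sx (pk k Z) (k + 1)) :=
      fun i => hlow k le_rfl _ _ rfl
    have h4 : ∑ i : Fin (k + 2), β (SimplicialObject.δ (pk k Z) i
          ((cz (k + 1), fc k) : Sx (pk k Z) (k + 1))) =
        ∑ i : Fin (k + 2), β (SimplicialObject.δ (pk k Z) i
          ((cz (k + 1), zc k _) : Sx (pk k Z) (k + 1))) :=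
      Finset.sum_congr rfl fun i _ => by rw [h3 i]
    rw [← h1, ← h2] at h4
    have h5 := add_left_cancel h4
    have h6 : (fc k).1 (𝟙 _) = 1 := if_pos rfl
    have h7 : (zc k (SimplexCategory.mk (k + 1))).1 (𝟙 _) = 0 := rfl
    rw [h6, h7] at h5
    exact one_ne_zero h5

end Pool.Agent.L7h53.HS
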