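import Pool.Agent.L7h74.HS.Stm

/-!
# Project HS, part KIL: killing a class
-/

set_option autoImplicit false

namespace Pool.Agent.L7h53.HS

open CategoryTheory Opposite Simplicial
open Pool.Agent.L7h74.HS

/-! ### Connectedness through functions -/

theorem const_of_conn {Z : SSet.{0}} (hZ : Z.IsConnected) {A : Type} (g : Sx Z 0 → A)
    (hg : ∀ e : Sx Z 1, g (SimplicialObject.δ Z 0 e) = g (SimplicialObject.δ Z 1 e))
    (x y : Sx Z 0) : g x = g y := by
  let G : SSet.π₀ Z → A := SSet.π₀.lift g fun x₀ x₁ e => by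
    have h1 : SimplicialObject.δ Z 1 e.edge = x₀ := e.src_eq
    have h2 : SimplicialObject.δ Z 0 e.edge = x₁ := e.tgt_eq
    exact (congrArg g h1).symm.trans ((hg e.edge).symm.trans (congrArg g h2))
  have h : G (SSet.π₀.mk x) = G (SSet.π₀.mk y) := congrArg G (Subsingleton.elim _ _)
  exact h

theorem conn_of_const {W : SSet.{0}} (hne : Nonempty (Sx W 0))
    (h : ∀ g : Sx W 0 → ZMod 2,
      (∀ e : Sx W 1, g (SimplicialObject.δ W 0 e) = g (SimplicialObject.δ W 1 e)) →
      ∀ x y, g x = g y) : W.IsConnected := by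
  classical
  rw [SSet.isConnected_iff]
  refine ⟨⟨fun a b => ?_⟩, hne⟩
  obtain ⟨x, rfl⟩ := SSet.π₀.mk_surjective a
  obtain ⟨y, rfl⟩ := SSet.π₀.mk_surjective b
  have h1 := h (fun z => if SSet.π₀.mk z = SSet.π₀.mk x then 1 else 0) (fun e => by
    have h2 : SSet.π₀.mk (SimplicialObject.δ W 1 e) = SSet.π₀.mk (SimplicialObject.δ W 0 e) :=
      SSet.π₀.sound (SSet.Edge.mk' e)
    simp only [h2]) x y
  by_contra hc
  simp only [if_true] at h1
  rw [if_neg (fun h => hc h.symm)] at h1
  exact one_ne_zero h1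

/-! ### The twisted product -/

/-- the monotone map is injective -/
def Inj {x y : SimplexCategory} (s : x ⟶ y) : Prop := Function.Injective s.toOrderHom

/-- the total space of the class `u` -/
def tw {k : ℕ} (Z : SSet.{0}) (u : Sx Z (k + 1) → ZMod 2) : SSet.{0} where
  obj m := {p : Z.obj m × ((SimplexCategory.mk k ⟶ m.unop) → ZMod 2) //
    ∀ t : SimplexCategory.mk (k + 1) ⟶ m.unop,
      ∑ i : Fin (k + 2), p.2 (SimplexCategory.δ i ≫ t) = u (Z.map t.op p.1)}
  map {m m'} g := ↾ fun p => ⟨(Z.map g p.1.1, fun s => p.1.2 (s ≫ g.unop)), fun t => by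
    have h := p.2 (t ≫ g.unop)
    have h1 : Z.map (t ≫ g.unop).op p.1.1 = Z.map t.op (Z.map g p.1.1) := by
      have : (t ≫ g.unop).op = g ≫ t.op := rfl
      rw [this]
      exact ConcreteCategory.congr_hom (Z.map_comp g t.op) p.1.1
    rw [h1] at h
    rw [← h]
    refine Finset.sum_congr rfl fun i _ => ?_
    show p.1.2 ((SimplexCategory.δ i ≫ t) ≫ g.unop) = _
    rw [Category.assoc]⟩
  map_id m := by
    refine ConcreteCategory.hom_ext _ _ fun p => ?_
    refine Subtype.ext (Prod.ext ?_ ?_)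
    · exact ConcreteCategory.congr_hom (Z.map_id m) p.1.1
    · funext s
      show p.1.2 (s ≫ (𝟙 m : m ⟶ m).unop) = p.1.2 s
      rw [unop_id, Category.comp_id]
  map_comp {m m' m''} f g := by
    refine ConcreteCategory.hom_ext _ _ fun p => ?_
    refine Subtype.ext (Prod.ext ?_ ?_)
    · exact ConcreteCategory.congr_hom (Z.map_comp f g) p.1.1
    · funext s
      show p.1.2 (s ≫ (f ≫ g).unop) = p.1.2 ((s ≫ g.unop) ≫ f.unop)
      rw [unop_comp, Category.assoc]

/-- the projection -/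
def twp {k : ℕ} (Z : SSet.{0}) (u : Sx Z (k + 1) → ZMod 2) : tw Z u ⟶ Z where
  app m := ↾ fun p => p.1.1
  naturality m m' f := by
    ext p
    rfl

theorem tw_dies {k : ℕ} (Z : SSet.{0}) (u : Sx Z (k + 1) → ZMod 2) :
    ∃ β, rs (twp Z u) u = dl β := by
  refine ⟨fun w => w.1.2 (𝟙 _), ?_⟩
  funext w
  have h := w.2 (𝟙 _)
  have h1 : Z.map (𝟙 (SimplexCategory.mk (k + 1))).op w.1.1 = w.1.1 := by
    rw [op_id]
    exact ConcreteCategory.congr_hom (Z.map_id _) w.1.1
  have h2 : u w.1.1 = ∑ i : Fin (k + 2), w.1.2 (SimplexCategory.δ i ≫ 𝟙 _) := by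
    rw [h]
    exact congrArg u h1.symm
  show u w.1.1 = _
  rw [h2]
  refine Finset.sum_congr rfl fun i _ => ?_
  show _ = w.1.2 (𝟙 _ ≫ SimplexCategory.δ i)
  rw [Category.id_comp, Category.comp_id]

/-! ### Combinatorics of the standard simplex -/

theorem inj_zero {m : SimplexCategory} (s : SimplexCategory.mk 0 ⟶ m) : Inj s := by
  intro a b _
  exact Subsingleton.elim (α := Fin 1) a b

theorem not_inj_sigma {k : ℕ} {m : SimplexCategory} (j : Fin (k + 1))
    (e : SimplexCategory.mk k ⟶ m) : ¬ Inj (SimplexCategory.σ j ≫ e) := by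
  intro h
  have h1 : (SimplexCategory.σ j).toOrderHom j.castSucc =
      (SimplexCategory.σ j).toOrderHom j.succ := by
    show Fin.predAbove j j.castSucc = Fin.predAbove j j.succ
    rw [Fin.predAbove_castSucc_self, Fin.predAbove_succ_self]
  have h2 : (SimplexCategory.σ j ≫ e).toOrderHom j.castSucc =
      (SimplexCategory.σ j ≫ e).toOrderHom j.succ := by
    show e.toOrderHom ((SimplexCategory.σ j).toOrderHom j.castSucc) =
      e.toOrderHom ((SimplexCategory.σ j).toOrderHom j.succ)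
    rw [h1]
  have h3 := h h2
  exact absurd h3 (Fin.castSucc_lt_succ).ne

theorem sum_zero {k : ℕ} (hk : k ≤ 1) {m : SimplexCategory}
    (b : (SimplexCategory.mk k ⟶ m) → ZMod 2) (hb : ∀ s, ¬ Inj s → b s = 0) (j : Fin (k + 1))
    (e : SimplexCategory.mk k ⟶ m) :
    ∑ i : Fin (k + 2), b (SimplexCategory.δ i ≫ SimplexCategory.σ j ≫ e) = 0 := by
  obtain rfl | rfl : k = 0 ∨ k = 1 := by omega
  · have hj : j = 0 := Subsingleton.elim (α := Fin 1) _ _
    subst hj
    have h0 : SimplexCategory.δ (0 : Fin 2) ≫ SimplexCategory.σ (0 : Fin 1) = 𝟙 _ :=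
      SimplexCategory.δ_comp_σ_self
    have h1 : SimplexCategory.δ (1 : Fin 2) ≫ SimplexCategory.σ (0 : Fin 1) = 𝟙 _ :=
      SimplexCategory.δ_comp_σ_succ
    rw [Fin.sum_univ_two, ← Category.assoc, ← Category.assoc, h0, h1, Category.id_comp]
    exact CharTwo.add_self_eq_zero _
  · obtain rfl | rfl : j = 0 ∨ j = 1 := by
      fin_cases j
      · left; rfl
      · right; rfl
    · have h0 : SimplexCategory.δ (0 : Fin 3) ≫ SimplexCategory.σ (0 : Fin 2) = 𝟙 _ :=
        SimplexCategory.δ_comp_σ_self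
      have h1 : SimplexCategory.δ (1 : Fin 3) ≫ SimplexCategory.σ (0 : Fin 2) = 𝟙 _ :=
        SimplexCategory.δ_comp_σ_succ
      have h2 : SimplexCategory.δ (2 : Fin 3) ≫ SimplexCategory.σ (0 : Fin 2) =
          SimplexCategory.σ 0 ≫ SimplexCategory.δ 1 :=
        SimplexCategory.δ_comp_σ_of_gt (n := 0) (i := 1) (j := 0) (by decide)
      rw [Fin.sum_univ_three, ← Category.assoc, ← Category.assoc, ← Category.assoc, h0, h1, h2,
        Category.id_comp, Category.assoc, hb _ (not_inj_sigma _ _), add_zero]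
      exact CharTwo.add_self_eq_zero _
    · have h0 : SimplexCategory.δ (0 : Fin 3) ≫ SimplexCategory.σ (1 : Fin 2) =
          SimplexCategory.σ 0 ≫ SimplexCategory.δ 0 :=
        SimplexCategory.δ_comp_σ_of_le (n := 0) (i := 0) (j := 0) (by decide)
      have h1 : SimplexCategory.δ (1 : Fin 3) ≫ SimplexCategory.σ (1 : Fin 2) = 𝟙 _ :=
        SimplexCategory.δ_comp_σ_self
      have h2 : SimplexCategory.δ (2 : Fin 3) ≫ SimplexCategory.σ (1 : Fin 2) = 𝟙 _ :=
        SimplexCategory.δ_comp_σ_succ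
      rw [Fin.sum_univ_three, ← Category.assoc, ← Category.assoc, ← Category.assoc, h0, h1, h2,
        Category.id_comp, Category.assoc, hb _ (not_inj_sigma _ _), zero_add]
      exact CharTwo.add_self_eq_zero _

theorem map_sigma {k : ℕ} {Z : SSet.{0}} {u : Sx Z (k + 1) → ZMod 2} (hu : NZ u)
    {m : SimplexCategory} (z : Z.obj (op m)) (j : Fin (k + 1)) (e : SimplexCategory.mk k ⟶ m) :
    u (Z.map (SimplexCategory.σ j ≫ e).op z) = 0 := by
  have h1 : Z.map (SimplexCategory.σ j ≫ e).op z = SimplicialObject.σ Z j (Z.map e.op z) := by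
    rw [op_comp]
    exact ConcreteCategory.congr_hom (Z.map_comp _ _) z
  rw [h1]
  exact hu.2 j _

/-- the simplices of the twisted product -/
theorem cond {k : ℕ} (hk : k ≤ 1) {Z : SSet.{0}} {u : Sx Z (k + 1) → ZMod 2} (hu : NZ u)
    {m : SimplexCategory} (z : Z.obj (op m)) (b : (SimplexCategory.mk k ⟶ m) → ZMod 2)
    (hb : ∀ s, ¬ Inj s → b s = 0)
    (hb1 : ∀ t : SimplexCategory.mk (k + 1) ⟶ m, Inj t →
      ∑ i : Fin (k + 2), b (SimplexCategory.δ i ≫ t) = u (Z.map t.op z))
    (t : SimplexCategory.mk (k + 1) ⟶ m) :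
    ∑ i : Fin (k + 2), b (SimplexCategory.δ i ≫ t) = u (Z.map t.op z) := by
  by_cases ht : Inj t
  · exact hb1 t ht
  · obtain ⟨j, e, rfl⟩ := SimplexCategory.eq_σ_comp_of_not_injective t ht
    rw [map_sigma hu, sum_zero hk b hb]

theorem not_inj_of_lt {k m : ℕ} (h : m ≤ k) (t : SimplexCategory.mk (k + 1) ⟶ SimplexCategory.mk m) :
    ¬ Inj t := by
  intro ht
  have h1 : Function.Injective (fun x : Fin (k + 2) => (t.toOrderHom x : Fin (m + 1))) := ht
  have h2 := Fintype.card_le_of_injective _ h1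
  have h3 : k + 2 ≤ m + 1 := by
    rw [Fintype.card_fin] at h2
    exact h2.trans (le_of_eq (Fintype.card_fin _))
  omega

theorem eq_id_of_inj {m : ℕ} (t : SimplexCategory.mk m ⟶ SimplexCategory.mk m) (ht : Inj t) :
    t = 𝟙 _ := by
  have : Mono t := SimplexCategory.mono_iff_injective.2 ht
  exact SimplexCategory.eq_id_of_mono t

/-- the `k`-simplices of the twisted product are determined by the value at the identity -/
theorem det {k : ℕ} (hk : k ≤ 1) {Z : SSet.{0}} {u : Sx Z (k + 1) → ZMod 2} (hu : NZ u)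
    {m : SimplexCategory} (w : (tw Z u).obj (op m)) (s : SimplexCategory.mk k ⟶ m)
    (hs : ¬ Inj s) : w.1.2 s = 0 := by
  obtain rfl | rfl : k = 0 ∨ k = 1 := by omega
  · exact absurd (inj_zero s) hs
  · obtain ⟨j, e, rfl⟩ := SimplexCategory.eq_σ_comp_of_not_injective s hs
    have hj : j = 0 := Subsingleton.elim (α := Fin 1) _ _
    subst hj
    have h := w.2 (SimplexCategory.σ 0 ≫ SimplexCategory.σ 0 ≫ e)
    rw [map_sigma hu, Fin.sum_univ_three] at h
    have key : ∀ i : Fin 3, SimplexCategory.δ i ≫ SimplexCategory.σ (0 : Fin 2) ≫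
        SimplexCategory.σ (0 : Fin 1) ≫ e = SimplexCategory.σ (0 : Fin 1) ≫ e := by
      intro i
      have h1 : SimplexCategory.δ i ≫ SimplexCategory.σ (0 : Fin 2) ≫
        SimplexCategory.σ (0 : Fin 1) = SimplexCategory.σ (0 : Fin 1) := by
        ext x
        exact congrArg Fin.val (Subsingleton.elim (α := Fin 1) _ _)
      rw [← Category.assoc (SimplexCategory.σ (0 : Fin 2)), ← Category.assoc, h1]
    rw [key, key, key, CharTwo.add_self_eq_zero, zero_add] at h
    exact h

/-- the `k`-simplex of the twisted product with value `ε` -/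
def smp {k : ℕ} (hk : k ≤ 1) {Z : SSet.{0}} {u : Sx Z (k + 1) → ZMod 2} (hu : NZ u)
    (z : Sx Z k) (ε : ZMod 2) : Sx (tw Z u) k := by
  classical
  exact ⟨(z, fun s => if s = 𝟙 _ then ε else 0), cond hk hu z _ (fun s hs => by
    show (if s = 𝟙 _ then ε else 0) = 0
    rw [if_neg]
    rintro rfl
    exact hs fun a b h => h) fun t ht => absurd ht (not_inj_of_lt le_rfl t)⟩

theorem eq_smp {k : ℕ} (hk : k ≤ 1) {Z : SSet.{0}} {u : Sx Z (k + 1) → ZMod 2} (hu : NZ u)
    (w : Sx (tw Z u) k) : w = smp hk hu w.1.1 (w.1.2 (𝟙 _)) := by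
  classical
  refine Subtype.ext (Prod.ext rfl ?_)
  funext s
  show w.1.2 s = if s = 𝟙 _ then w.1.2 (𝟙 _) else 0
  by_cases hs : s = 𝟙 _
  · rw [if_pos hs, hs]
  · rw [if_neg hs]
    exact det hk hu w s fun h => hs (eq_id_of_inj s h)

theorem delta_inj {k : ℕ} (i j : Fin (k + 2))
    (h : (SimplexCategory.δ i : SimplexCategory.mk k ⟶ SimplexCategory.mk (k + 1)) =
      SimplexCategory.δ j) : i = j := by
  apply Fin.succAbove_left_injective
  funext x
  have := congrArg (fun t : SimplexCategory.mk k ⟶ SimplexCategory.mk (k + 1) =>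
    t.toOrderHom x) h
  exact this

/-- there is a `(k + 1)`-simplex of the twisted product with prescribed values on the faces -/
theorem exist {k : ℕ} (hk : k ≤ 1) {Z : SSet.{0}} {u : Sx Z (k + 1) → ZMod 2} (hu : NZ u)
    (z : Sx Z (k + 1)) (c : Fin (k + 2) → ZMod 2) (hc : ∑ i, c i = u z) :
    ∃ w : Sx (tw Z u) (k + 1), w.1.1 = z ∧ ∀ i, w.1.2 (SimplexCategory.δ i) = c i := by
  classical
  have hval : ∀ i : Fin (k + 2), (∑ j : Fin (k + 2), if (SimplexCategory.δ i :
      SimplexCategory.mk k ⟶ SimplexCategory.mk (k + 1)) = SimplexCategory.δ j then c j else 0)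
      = c i := by
    intro i
    rw [Finset.sum_eq_single i]
    · rw [if_pos rfl]
    · intro j _ hj
      rw [if_neg]
      intro h
      exact hj (delta_inj i j h).symm
    · intro h
      exact absurd (Finset.mem_univ i) h
  refine ⟨⟨(z, fun s => ∑ j : Fin (k + 2), if s = SimplexCategory.δ j then c j else 0),
    cond hk hu z _ ?_ ?_⟩, rfl, hval⟩
  · intro s hs
    show (∑ j : Fin (k + 2), if s = SimplexCategory.δ j then c j else 0) = 0
    refine Finset.sum_eq_zero fun j _ => ?_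
    rw [if_neg]
    rintro rfl
    exact hs (SimplexCategory.mono_iff_injective.1 inferInstance)
  · intro t ht
    have h1 := eq_id_of_inj t ht
    subst h1
    have h2 : Z.map (𝟙 (SimplexCategory.mk (k + 1))).op z = z := by
      rw [op_id]
      exact ConcreteCategory.congr_hom (Z.map_id _) z
    rw [h2, ← hc]
    refine Finset.sum_congr rfl fun i _ => ?_
    rw [Category.comp_id]
    exact hval i

/-- the faces of a `(k + 1)`-simplex of the twisted product -/
theorem face {k : ℕ} (hk : k ≤ 1) {Z : SSet.{0}} {u : Sx Z (k + 1) → ZMod 2} (hu : NZ u)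
    (w : Sx (tw Z u) (k + 1)) (i : Fin (k + 2)) :
    SimplicialObject.δ (tw Z u) i w =
      smp hk hu (SimplicialObject.δ Z i w.1.1) (w.1.2 (SimplexCategory.δ i)) := by
  rw [eq_smp hk hu (SimplicialObject.δ (tw Z u) i w)]
  have h1 : (SimplicialObject.δ (tw Z u) i w).1.2 (𝟙 _) = w.1.2 (SimplexCategory.δ i) := by
    show w.1.2 (𝟙 _ ≫ SimplexCategory.δ i) = _
    rw [Category.id_comp]
  rw [h1]
  rfl

theorem zmod2 (x : ZMod 2) : x = 0 ∨ x = 1 := by
  revert x
  decide

theorem conn_zero {Z : SSet.{0}} (hZ : Z.IsConnected) {u : Sx Z (0 + 1) → ZMod 2} (hu : NZ u)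
    (hcob : ¬ ∃ β, u = dl β) : (tw Z u).IsConnected := by
  have hk : 0 ≤ 1 := zero_le_one
  obtain ⟨z0⟩ : Nonempty (Sx Z 0) := hZ.nonempty
  refine conn_of_const ⟨smp hk hu z0 0⟩ fun g hg => ?_
  have hE : ∀ (e : Sx Z 1) (c0 c1 : ZMod 2), c0 + c1 = u e →
      g (smp hk hu (SimplicialObject.δ Z 0 e) c0) = g (smp hk hu (SimplicialObject.δ Z 1 e) c1) := by
    intro e c0 c1 h
    obtain ⟨w, hw1, hw2⟩ := exist hk hu e ![c0, c1] (by
      rw [Fin.sum_univ_two]
      exact h)
    have h0 := face hk hu w 0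
    have h1 := face hk hu w 1
    rw [hw1, hw2] at h0 h1
    have h2 := hg w
    rw [h0, h1] at h2
    exact h2
  have hh := const_of_conn hZ (fun z => g (smp hk hu z 0) + g (smp hk hu z 1)) (fun e => by
    show g (smp hk hu (SimplicialObject.δ Z 0 e) 0) + g (smp hk hu (SimplicialObject.δ Z 0 e) 1) =
      g (smp hk hu (SimplicialObject.δ Z 1 e) 0) + g (smp hk hu (SimplicialObject.δ Z 1 e) 1)
    rcases zmod2 (u e) with h | h
    · rw [hE e 0 0 (by rw [h, add_zero]), hE e 1 1 (by rw [h]; decide)]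
    · rw [hE e 0 1 (by rw [h, zero_add]), hE e 1 0 (by rw [h, add_zero]), add_comm])
  rcases zmod2 (g (smp hk hu z0 0) + g (smp hk hu z0 1)) with h | h
  · have h1 : ∀ z, g (smp hk hu z 0) = g (smp hk hu z 1) := by
      intro z
      have h2 : g (smp hk hu z 0) + g (smp hk hu z 1) = 0 := (hh z z0).trans h
      exact CharTwo.add_eq_zero.1 h2
    have h2 : ∀ z ε, g (smp hk hu z ε) = g (smp hk hu z 0) := by
      intro z ε
      rcases zmod2 ε with rfl | rfl
      · rfl
      · exact (h1 z).symm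
    have h3 := const_of_conn hZ (fun z => g (smp hk hu z 0)) (fun e => by
      show g (smp hk hu (SimplicialObject.δ Z 0 e) 0) = g (smp hk hu (SimplicialObject.δ Z 1 e) 0)
      rw [hE e 0 (u e) (zero_add _), h2])
    intro x y
    rw [eq_smp hk hu x, eq_smp hk hu y, h2, h2 y.1.1]
    exact h3 _ _
  · exfalso
    apply hcob
    refine ⟨fun z => g (smp hk hu z 0), ?_⟩
    funext e
    have h4 : g (smp hk hu (SimplicialObject.δ Z 1 e) 0) +
        g (smp hk hu (SimplicialObject.δ Z 1 e) 1) = 1 := (hh _ z0).trans h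
    show u e = ∑ i : Fin 2, g (smp hk hu (SimplicialObject.δ Z i e) 0)
    rw [Fin.sum_univ_two]
    rcases zmod2 (u e) with h5 | h5
    · rw [hE e 0 0 (by rw [h5, add_zero]), h5, CharTwo.add_self_eq_zero]
    · rw [hE e 0 1 (by rw [h5, zero_add]), h5, add_comm, h4]

theorem conn_one {Z : SSet.{0}} (hZ : Z.IsConnected) {u : Sx Z (1 + 1) → ZMod 2} (hu : NZ u) :
    (tw Z u).IsConnected := by
  have hk : 1 ≤ 1 := le_rfl
  have hval : ∀ (w : Sx (tw Z u) 0) (s : SimplexCategory.mk 1 ⟶ SimplexCategory.mk 0),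
      w.1.2 s = 0 := fun w s => det hk hu w s (not_inj_of_lt (k := 0) le_rfl s)
  have heq : ∀ w w' : Sx (tw Z u) 0, w.1.1 = w'.1.1 → w = w' := by
    intro w w' h
    refine Subtype.ext (Prod.ext h ?_)
    funext s
    rw [hval, hval]
  have hex : ∀ z : Sx Z 0, ∃ w : Sx (tw Z u) 0, w.1.1 = z := by
    intro z
    refine ⟨SimplicialObject.δ (tw Z u) 0 (smp hk hu (SimplicialObject.σ Z 0 z) 0), ?_⟩
    show SimplicialObject.δ Z 0 (SimplicialObject.σ Z 0 z) = z
    exact ConcreteCategory.congr_hom (SimplicialObject.δ_comp_σ_self Z (i := (0 : Fin 1))) z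
  choose pt hpt using hex
  obtain ⟨z0⟩ : Nonempty (Sx Z 0) := hZ.nonempty
  refine conn_of_const ⟨pt z0⟩ fun g hg => ?_
  have h3 := const_of_conn hZ (fun z => g (pt z)) (fun e => by
    show g (pt (SimplicialObject.δ Z 0 e)) = g (pt (SimplicialObject.δ Z 1 e))
    have h4 := hg (smp hk hu e 0)
    rw [heq (pt (SimplicialObject.δ Z 0 e)) (SimplicialObject.δ (tw Z u) 0 (smp hk hu e 0))
      (hpt _), heq (pt (SimplicialObject.δ Z 1 e)) (SimplicialObject.δ (tw Z u) 1 (smp hk hu e 0))
      (hpt _)]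
    exact h4)
  intro x y
  rw [heq x (pt x.1.1) (hpt _).symm, heq y (pt y.1.1) (hpt _).symm]
  exact h3 _ _

theorem s_KIL : S_KIL := by
  intro k hk Z hZ u hu
  by_cases hcob : ∃ β, u = dl β
  · refine ⟨Z, hZ, 𝟙 Z, ?_, fun v hv h => Or.inl ?_⟩
    · obtain ⟨β, hβ⟩ := hcob
      exact ⟨β, hβ⟩
    · obtain ⟨β, hβ⟩ := h
      exact ⟨β, hβ⟩
  have hconn : (tw Z u).IsConnected := by
    obtain rfl | rfl : k = 0 ∨ k = 1 := by omega
    · exact conn_zero hZ hu hcob
    · exact conn_one hZ hu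
  refine ⟨tw Z u, hconn, twp Z u, tw_dies Z u, ?_⟩
  rintro v hv ⟨β, hβ⟩
  set β₀ : Sx Z k → ZMod 2 := fun z => β (smp hk hu z 0) with hβ₀
  set β₁ : Sx Z k → ZMod 2 := fun z => β (smp hk hu z 0) + β (smp hk hu z 1) with hβ₁
  have hβε : ∀ z ε, β (smp hk hu z ε) = β₀ z + ε * β₁ z := by
    intro z ε
    rcases zmod2 ε with rfl | rfl
    · rw [zero_mul, add_zero]
    · rw [one_mul, hβ₁, ← add_assoc, CharTwo.add_self_eq_zero, zero_add]
  have hA : ∀ (z : Sx Z (k + 1)) (c : Fin (k + 2) → ZMod 2), ∑ i, c i = u z →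
      v z = dl β₀ z + ∑ i, c i * β₁ (SimplicialObject.δ Z i z) := by
    intro z c hc
    obtain ⟨w, hw1, hw2⟩ := exist hk hu z c hc
    have h1 := congrFun hβ w
    have h2 : rs (twp Z u) v w = v z := congrArg v hw1
    rw [h2] at h1
    rw [h1]
    show ∑ i, β (SimplicialObject.δ (tw Z u) i w) = (∑ i, β₀ (SimplicialObject.δ Z i z)) + _
    rw [← Finset.sum_add_distrib]
    refine Finset.sum_congr rfl fun i _ => ?_
    rw [face hk hu w i, hw1, hw2, hβε]
  have hθ : ∃ θ : ZMod 2, ∀ z, β₁ z = θ := by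
    obtain rfl | rfl : k = 0 ∨ k = 1 := by omega
    · obtain ⟨z0⟩ : Nonempty (Sx Z 0) := hZ.nonempty
      refine ⟨β₁ z0, fun z => const_of_conn hZ β₁ (fun e => ?_) z z0⟩
      have h1 := hA e ![u e, 0] (by rw [Fin.sum_univ_two]; exact add_zero _)
      have h2 := hA e ![u e + 1, 1] (by
        rw [Fin.sum_univ_two]
        show u e + 1 + 1 = u e
        rw [add_assoc, CharTwo.add_self_eq_zero, add_zero])
      rw [h1] at h2
      have h3 := add_left_cancel h2
      rw [Fin.sum_univ_two, Fin.sum_univ_two] at h3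
      change u e * β₁ (SimplicialObject.δ Z 0 e) + 0 * β₁ (SimplicialObject.δ Z 1 e) =
        (u e + 1) * β₁ (SimplicialObject.δ Z 0 e) + 1 * β₁ (SimplicialObject.δ Z 1 e) at h3
      have h4 : β₁ (SimplicialObject.δ Z 0 e) + β₁ (SimplicialObject.δ Z 1 e) = 0 := by
        linear_combination -h3
      exact CharTwo.add_eq_zero.1 h4
    · have hB : ∀ z : Sx Z 2, β₁ (SimplicialObject.δ Z 0 z) = β₁ (SimplicialObject.δ Z 1 z) ∧
          β₁ (SimplicialObject.δ Z 0 z) = β₁ (SimplicialObject.δ Z 2 z) := by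
        intro z
        have h1 := hA z ![u z, 0, 0] (by
          rw [Fin.sum_univ_three]
          show u z + 0 + 0 = u z
          rw [add_zero, add_zero])
        have h2 := hA z ![u z + 1, 1, 0] (by
          rw [Fin.sum_univ_three]
          show u z + 1 + 1 + 0 = u z
          rw [add_assoc, add_assoc, ← add_assoc 1, CharTwo.add_self_eq_zero, add_zero, add_zero])
        have h3 := hA z ![u z + 1, 0, 1] (by
          rw [Fin.sum_univ_three]
          show u z + 1 + 0 + 1 = u z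
          rw [add_zero, add_assoc, CharTwo.add_self_eq_zero, add_zero])
        rw [h1] at h2 h3
        have h4 := add_left_cancel h2
        have h5 := add_left_cancel h3
        rw [Fin.sum_univ_three, Fin.sum_univ_three] at h4 h5
        change u z * β₁ (SimplicialObject.δ Z 0 z) + 0 * β₁ (SimplicialObject.δ Z 1 z) +
          0 * β₁ (SimplicialObject.δ Z 2 z) =
          (u z + 1) * β₁ (SimplicialObject.δ Z 0 z) + 1 * β₁ (SimplicialObject.δ Z 1 z) +
          0 * β₁ (SimplicialObject.δ Z 2 z) at h4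
        change u z * β₁ (SimplicialObject.δ Z 0 z) + 0 * β₁ (SimplicialObject.δ Z 1 z) +
          0 * β₁ (SimplicialObject.δ Z 2 z) =
          (u z + 1) * β₁ (SimplicialObject.δ Z 0 z) + 0 * β₁ (SimplicialObject.δ Z 1 z) +
          1 * β₁ (SimplicialObject.δ Z 2 z) at h5
        constructor
        · have h6 : β₁ (SimplicialObject.δ Z 0 z) + β₁ (SimplicialObject.δ Z 1 z) = 0 := by
            linear_combination -h4
          exact CharTwo.add_eq_zero.1 h6
        · have h6 : β₁ (SimplicialObject.δ Z 0 z) + β₁ (SimplicialObject.δ Z 2 z) = 0 := by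
            linear_combination -h5
          exact CharTwo.add_eq_zero.1 h6
      have h1 : ∀ e : Sx Z 1, β₁ e = β₁ (SimplicialObject.σ Z 0 (SimplicialObject.δ Z 1 e)) := by
        intro e
        have h2 := (hB (SimplicialObject.σ Z 0 e)).2
        have e1 : SimplicialObject.δ Z 0 (SimplicialObject.σ Z 0 e) = e :=
          ConcreteCategory.congr_hom (SimplicialObject.δ_comp_σ_self Z (i := (0 : Fin 2))) e
        have e2 : SimplicialObject.δ Z 2 (SimplicialObject.σ Z 0 e) =
            SimplicialObject.σ Z 0 (SimplicialObject.δ Z 1 e) :=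
          ConcreteCategory.congr_hom (SimplicialObject.δ_comp_σ_of_gt Z (n := 0) (i := 1) (j := 0)
            (by decide)) e
        rw [e1, e2] at h2
        exact h2
      have h2 : ∀ e : Sx Z 1, β₁ e = β₁ (SimplicialObject.σ Z 0 (SimplicialObject.δ Z 0 e)) := by
        intro e
        have h2 := (hB (SimplicialObject.σ Z 1 e)).1
        have e1 : SimplicialObject.δ Z 1 (SimplicialObject.σ Z 1 e) = e :=
          ConcreteCategory.congr_hom (SimplicialObject.δ_comp_σ_self Z (i := (1 : Fin 2))) e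
        have e2 : SimplicialObject.δ Z 0 (SimplicialObject.σ Z 1 e) =
            SimplicialObject.σ Z 0 (SimplicialObject.δ Z 0 e) :=
          ConcreteCategory.congr_hom (SimplicialObject.δ_comp_σ_of_le Z (n := 0) (i := 0) (j := 0)
            (by decide)) e
        rw [e1, e2] at h2
        exact h2.symm
      obtain ⟨z0⟩ : Nonempty (Sx Z 0) := hZ.nonempty
      refine ⟨β₁ (SimplicialObject.σ Z 0 z0), fun e => ?_⟩
      rw [h1 e]
      exact const_of_conn hZ (fun z => β₁ (SimplicialObject.σ Z 0 z)) (fun e => by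
        show β₁ (SimplicialObject.σ Z 0 (SimplicialObject.δ Z 0 e)) =
          β₁ (SimplicialObject.σ Z 0 (SimplicialObject.δ Z 1 e))
        rw [← h1, ← h2]) _ _
  obtain ⟨θ, hθ⟩ := hθ
  have hD : ∀ z, v z = dl β₀ z + θ * u z := by
    intro z
    have h1 := hA z (fun i => if i = 0 then u z else 0) (by
      rw [Finset.sum_ite_eq' Finset.univ (0 : Fin (k + 2)), if_pos (Finset.mem_univ _)])
    rw [h1]
    congr 1
    simp only [hθ]
    rw [← Finset.sum_mul, Finset.sum_ite_eq' Finset.univ (0 : Fin (k + 2)),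
      if_pos (Finset.mem_univ _), mul_comm]
  rcases zmod2 θ with rfl | rfl
  · left
    refine ⟨β₀, ?_⟩
    funext z
    rw [hD z, zero_mul, add_zero]
  · right
    refine ⟨β₀, ?_⟩
    funext z
    show v z + u z = _
    rw [hD z, one_mul, add_assoc, CharTwo.add_self_eq_zero, add_zero]

end Pool.Agent.L7h53.HS
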